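import Mathlib

/-!
# MP_1ac470_nt: conditions on a primitive zero

Let `F(x,y,z) = x^4 + x^3 y - y^4 + y^3 z + z^4` and let `(x,y,z)` be a zero in coprime integers; up to
the sign of the triple, `y > 0`.  Then `x, y, z` are pairwise coprime, `y ≡ 2 mod 16`, `x ≡ 3 mod 8`,
`z` is odd, `x ≡ y ≡ z ≢ 0 mod 3`; every odd prime factor of `y (y^3 - y^2 z - x^3)` is 1 modulo 8;
and the congruence `t^4 + t^3 ≡ 1` is solvable modulo every prime factor of
`x z (x + y) (y + z) (y^2 - y z + z^2)`.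
-/

set_option autoImplicit false

namespace Pool.Agent.Results.MP_1ac470_nt.PrimeFactorConditions

/-- The quartic form of the problem. -/
def F {R : Type} [CommRing R] (x y z : R) : R := x ^ 4 + x ^ 3 * y - y ^ 4 + y ^ 3 * z + z ^ 4

theorem cast_F {R : Type} [CommRing R] {x y z : ℤ} (h : F x y z = 0) :
    (x : R) ^ 4 + (x : R) ^ 3 * y - (y : R) ^ 4 + (y : R) ^ 3 * z + (z : R) ^ 4 = 0 := by
  have := congrArg (Int.cast : ℤ → R) h
  simpa [F] using this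

theorem prime_dvd_of {x y z : ℤ} (hg : ∀ p : ℕ, p.Prime → ¬ ((p : ℤ) ∣ x ∧ (p : ℤ) ∣ y ∧ (p : ℤ) ∣ z))
    (h : F x y z = 0) {p : ℕ} (hp : p.Prime) :
    ¬ ((p : ℤ) ∣ x ∧ (p : ℤ) ∣ y) ∧ ¬ ((p : ℤ) ∣ y ∧ (p : ℤ) ∣ z) ∧ ¬ ((p : ℤ) ∣ x ∧ (p : ℤ) ∣ z) := by
  have := Fact.mk hp
  have e := cast_F (R := ZMod p) h
  have hd : ∀ a : ℤ, (p : ℤ) ∣ a ↔ (a : ZMod p) = 0 := fun a =>
    (ZMod.intCast_zmod_eq_zero_iff_dvd a p).symm
  have hg' := hg p hp
  simp only [hd] at hg' ⊢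
  refine ⟨?_, ?_, ?_⟩
  · rintro ⟨hx, hy⟩
    rw [hx, hy] at e
    have : ((z : ZMod p)) ^ 4 = 0 := by linear_combination e
    exact hg' ⟨hx, hy, pow_eq_zero_iff (by norm_num) |>.1 this⟩
  · rintro ⟨hy, hz⟩
    rw [hy, hz] at e
    have : ((x : ZMod p)) ^ 4 = 0 := by linear_combination e
    exact hg' ⟨pow_eq_zero_iff (by norm_num) |>.1 this, hy, hz⟩
  · rintro ⟨hx, hz⟩
    rw [hx, hz] at e
    have : ((y : ZMod p)) ^ 4 = 0 := by linear_combination (-1 : ZMod p) * e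
    exact hg' ⟨hx, pow_eq_zero_iff (by norm_num) |>.1 this, hz⟩

theorem coprime_of {a b : ℤ} (h : ∀ p : ℕ, p.Prime → ¬ ((p : ℤ) ∣ a ∧ (p : ℤ) ∣ b)) : IsCoprime a b := by
  rw [Int.isCoprime_iff_gcd_eq_one]
  by_contra hne
  obtain ⟨p, hp, hd⟩ := Nat.exists_prime_and_dvd hne
  exact h p hp ⟨(Int.natCast_dvd_natCast.2 hd).trans (Int.gcd_dvd_left ..),
    (Int.natCast_dvd_natCast.2 hd).trans (Int.gcd_dvd_right ..)⟩

theorem root_of {x y z : ℤ}
    (hg : ∀ p : ℕ, p.Prime → ¬ ((p : ℤ) ∣ x ∧ (p : ℤ) ∣ y ∧ (p : ℤ) ∣ z))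
    (h : F x y z = 0) {p : ℕ} (hp : p.Prime)
    (hd : (p : ℤ) ∣ x * z * (x + y) * (y + z) * (y ^ 2 - y * z + z ^ 2)) :
    ∃ t : ZMod p, t ^ 4 + t ^ 3 = 1 := by
  have := Fact.mk hp
  obtain ⟨c1, c2, c3⟩ := prime_dvd_of hg h hp
  have e := cast_F (R := ZMod p) h
  have hdv : ∀ a : ℤ, (p : ℤ) ∣ a ↔ (a : ZMod p) = 0 := fun a =>
    (ZMod.intCast_zmod_eq_zero_iff_dvd a p).symm
  simp only [hdv] at c1 c2 c3 hd
  push_cast at hd
  generalize (x : ZMod p) = X at *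
  generalize (y : ZMod p) = Y at *
  generalize (z : ZMod p) = Z at *
  have key : X ^ 3 * (X + Y) = 0 ∨ Z * ((Y + Z) * (Y ^ 2 - Y * Z + Z ^ 2)) = 0 := by
    rcases mul_eq_zero.1 hd with k | k
    · rcases mul_eq_zero.1 k with k | k
      · rcases mul_eq_zero.1 k with k | k
        · rcases mul_eq_zero.1 k with k | k
          · left; rw [k]; ring
          · right; rw [k]; ring
        · left; rw [k]; ring
      · right; rw [k]; ring
    · right; rw [k]; ring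
  rcases key with k | k
  · -- `Y^4 - Y^3 Z - Z^4 = 0`
    have e2 : Y ^ 4 - Y ^ 3 * Z - Z ^ 4 = 0 := by linear_combination k - e
    have hZ : Z ≠ 0 := by
      intro hz
      rw [hz] at e2
      have : Y ^ 4 = 0 := by linear_combination e2
      exact c2 ⟨pow_eq_zero_iff (by norm_num) |>.1 this, hz⟩
    refine ⟨-(Y / Z), ?_⟩
    field_simp
    linear_combination e2
  · have e2 : X ^ 4 + X ^ 3 * Y - Y ^ 4 = 0 := by linear_combination e - k
    have hY : Y ≠ 0 := by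
      intro hy
      rw [hy] at e2
      have : X ^ 4 = 0 := by linear_combination e2
      exact c1 ⟨pow_eq_zero_iff (by norm_num) |>.1 this, hy⟩
    refine ⟨X / Y, ?_⟩
    field_simp
    linear_combination e2

theorem mod8_of {x y z : ℤ}
    (hg : ∀ p : ℕ, p.Prime → ¬ ((p : ℤ) ∣ x ∧ (p : ℤ) ∣ y ∧ (p : ℤ) ∣ z))
    (h : F x y z = 0) {p : ℕ} (hp : p.Prime) (h2 : p ≠ 2)
    (hd : (p : ℤ) ∣ y * (y ^ 3 - y ^ 2 * z - x ^ 3)) : p % 8 = 1 := by
  have := Fact.mk hp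
  obtain ⟨c1, c2, c3⟩ := prime_dvd_of hg h hp
  have e := cast_F (R := ZMod p) h
  have hdv : ∀ a : ℤ, (p : ℤ) ∣ a ↔ (a : ZMod p) = 0 := fun a =>
    (ZMod.intCast_zmod_eq_zero_iff_dvd a p).symm
  simp only [hdv] at c1 c2 c3 hd
  push_cast at hd
  have hneg : (-1 : ZMod p) ≠ 1 := by
    have : Fact (2 < p) := ⟨lt_of_le_of_ne hp.two_le (Ne.symm h2)⟩
    exact ZMod.neg_one_ne_one
  generalize (x : ZMod p) = X at *
  generalize (y : ZMod p) = Y at *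
  generalize (z : ZMod p) = Z at *
  have e2 : X ^ 4 + Z ^ 4 = 0 := by linear_combination e + hd
  have hZ : Z ≠ 0 := by
    intro hz
    rw [hz] at e2
    have : X ^ 4 = 0 := by linear_combination e2
    exact c3 ⟨pow_eq_zero_iff (by norm_num) |>.1 this, hz⟩
  have e3 : (X / Z) ^ 4 = -1 := by
    field_simp
    linear_combination e2
  have hne : X / Z ≠ 0 := by
    intro h0
    rw [h0] at e3
    norm_num at e3
  have ho : orderOf (X / Z) = 2 ^ (2 + 1) := by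
    apply orderOf_eq_prime_pow
    · rw [show 2 ^ 2 = 4 by norm_num, e3]; exact hneg
    · rw [show 2 ^ (2 + 1) = 4 * 2 by norm_num, pow_mul, e3]; ring
  have hdv8 := ZMod.orderOf_dvd_card_sub_one hne
  rw [ho] at hdv8
  have h1 := hp.two_le
  norm_num at hdv8
  omega

theorem nat_mod8 (n : ℕ) : (∀ p : ℕ, p.Prime → p ∣ n → p % 8 = 1) → n ≠ 0 → n % 8 = 1 := by
  induction n using Nat.recOnMul with
  | zero => intro _ h; exact absurd rfl h
  | one => intro _ _; rfl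
  | prime q hq => intro h _; exact h q hq dvd_rfl
  | mul a b ha hb =>
    intro h hne
    have h1 := ha (fun p hp hd => h p hp (hd.mul_right b)) (left_ne_zero_of_mul hne)
    have h2 := hb (fun p hp hd => h p hp (hd.mul_left a)) (right_ne_zero_of_mul hne)
    rw [Nat.mul_mod, h1, h2]

/-- **Theorem.**  Let `x, y, z` be integers without a common prime factor, with `F(x,y,z) = 0` and
`y ≥ 0` (replace `(x,y,z)` by `-(x,y,z)` if necessary). -/
theorem result (x y z : ℤ) (h : F x y z = 0)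
    (hg : ∀ p : ℕ, p.Prime → ¬ ((p : ℤ) ∣ x ∧ (p : ℤ) ∣ y ∧ (p : ℤ) ∣ z)) (hy : 0 ≤ y) :
    (IsCoprime x y ∧ IsCoprime y z ∧ IsCoprime x z) ∧
    (y % 16 = 2 ∧ x % 8 = 3 ∧ z % 2 = 1) ∧
    (x % 3 = y % 3 ∧ y % 3 = z % 3 ∧ z % 3 ≠ 0) ∧
    (∀ p : ℕ, p.Prime → p ≠ 2 → (p : ℤ) ∣ y * (y ^ 3 - y ^ 2 * z - x ^ 3) → p % 8 = 1) ∧
    (∀ p : ℕ, p.Prime → (p : ℤ) ∣ x * z * (x + y) * (y + z) * (y ^ 2 - y * z + z ^ 2) →
      ∃ t : ZMod p, t ^ 4 + t ^ 3 = 1) := by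
  refine ⟨⟨coprime_of fun p hp => (prime_dvd_of hg h hp).1,
    coprime_of fun p hp => (prime_dvd_of hg h hp).2.1,
    coprime_of fun p hp => (prime_dvd_of hg h hp).2.2⟩, ?_, ?_,
    fun p hp h2 hd => mod8_of hg h hp h2 hd, fun p hp hd => root_of hg h hp hd⟩
  · -- modulo 16
    have e2 := cast_F (R := ZMod 2) h
    have g2 := hg 2 Nat.prime_two
    have hdv : ∀ a : ℤ, ((2 : ℕ) : ℤ) ∣ a ↔ (a : ZMod 2) = 0 := fun a =>
      (ZMod.intCast_zmod_eq_zero_iff_dvd a 2).symm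
    simp only [hdv] at g2
    have k2 : ∀ a b c : ZMod 2, a ^ 4 + a ^ 3 * b - b ^ 4 + b ^ 3 * c + c ^ 4 = 0 →
        ¬ (a = 0 ∧ b = 0 ∧ c = 0) → a = 1 ∧ b = 0 ∧ c = 1 := by decide
    obtain ⟨hx, hyy, hz⟩ := k2 _ _ _ e2 g2
    have hx' : x % 2 = 1 := by
      have : ((x : ℤ) : ZMod 2) = ((1 : ℤ) : ZMod 2) := by simpa using hx
      rw [ZMod.intCast_eq_intCast_iff] at this
      exact this
    have hz' : z % 2 = 1 := by
      have : ((z : ℤ) : ZMod 2) = ((1 : ℤ) : ZMod 2) := by simpa using hz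
      rw [ZMod.intCast_eq_intCast_iff] at this
      exact this
    have hy' : (2 : ℤ) ∣ y := (hdv y).2 hyy
    obtain ⟨b, rfl⟩ := hy'
    obtain ⟨a, rfl⟩ : ∃ a, x = 2 * a + 1 := ⟨x / 2, by omega⟩
    obtain ⟨c, rfl⟩ : ∃ c, z = 2 * c + 1 := ⟨z / 2, by omega⟩
    -- the equation divided by 2, modulo 8
    have e8 : 1 + b * (2 * a + 1) ^ 3 + 4 * b ^ 3 +
        8 * (a ^ 4 + 2 * a ^ 3 + c ^ 4 + 2 * c ^ 3 - b ^ 4 + b ^ 3 * c)
        + 4 * (3 * a ^ 2 + a + 3 * c ^ 2 + c) = 0 := by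
      have h' := h
      unfold F at h'
      have h2 : (2 : ℤ) * (1 + b * (2 * a + 1) ^ 3 + 4 * b ^ 3 +
        8 * (a ^ 4 + 2 * a ^ 3 + c ^ 4 + 2 * c ^ 3 - b ^ 4 + b ^ 3 * c)
        + 4 * (3 * a ^ 2 + a + 3 * c ^ 2 + c)) = 0 := by linear_combination h'
      exact (mul_eq_zero.1 h2).resolve_left (by norm_num)
    have e8' := congrArg (Int.cast : ℤ → ZMod 8) e8
    push_cast at e8'
    have h80 : (8 : ZMod 8) = 0 := by decide
    rw [h80, zero_mul, add_zero] at e8'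
    have k8 : ∀ a b c : ZMod 8, 1 + b * (2 * a + 1) ^ 3 + 4 * b ^ 3 +
        4 * (3 * a ^ 2 + a + 3 * c ^ 2 + c) = 0 → b * (2 * a + 1) = 3 := by decide
    have m8 := k8 _ _ _ e8'
    have m8' : (b * (2 * a + 1)) % 8 = 3 := by
      have : ((b * (2 * a + 1) : ℤ) : ZMod 8) = ((3 : ℤ) : ZMod 8) := by push_cast; exact m8
      rw [ZMod.intCast_eq_intCast_iff] at this
      exact this
    have hb0 : b ≠ 0 := by
      rintro rfl
      simp at m8'
    have hbodd : b % 2 = 1 := by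
      by_contra hcon
      have hb2 : b % 2 = 0 := by omega
      obtain ⟨w, rfl⟩ : ∃ w, b = 2 * w := ⟨b / 2, by omega⟩
      have : (2 * w * (2 * a + 1)) % 2 = 1 := by omega
      rw [mul_assoc, Int.mul_emod_right] at this
      exact absurd this (by norm_num)
    have hn8 : b.natAbs % 8 = 1 := by
      apply nat_mod8 _ _ (Int.natAbs_ne_zero.2 hb0)
      intro p hp hd
      have hd' : (p : ℤ) ∣ b := Int.natCast_dvd.2 hd
      apply mod8_of hg h hp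
      · rintro rfl
        obtain ⟨w, hw⟩ := hd'
        push_cast at hw
        omega
      · exact (hd'.mul_left 2).mul_right _
    have hb8 : b % 8 = 1 := by omega
    refine ⟨by omega, ?_, by omega⟩
    have := Int.mul_emod b (2 * a + 1) 8
    rw [m8', hb8, one_mul] at this
    omega
  · -- modulo 3
    have e3 := cast_F (R := ZMod 3) h
    have g3 := hg 3 Nat.prime_three
    have hdv : ∀ a : ℤ, ((3 : ℕ) : ℤ) ∣ a ↔ (a : ZMod 3) = 0 := fun a =>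
      (ZMod.intCast_zmod_eq_zero_iff_dvd a 3).symm
    simp only [hdv] at g3
    have k3 : ∀ a b c : ZMod 3, a ^ 4 + a ^ 3 * b - b ^ 4 + b ^ 3 * c + c ^ 4 = 0 →
        ¬ (a = 0 ∧ b = 0 ∧ c = 0) → a = b ∧ b = c ∧ c ≠ 0 := by decide
    obtain ⟨h1, h2, h3⟩ := k3 _ _ _ e3 g3
    rw [ZMod.intCast_eq_intCast_iff] at h1 h2
    refine ⟨h1, h2, ?_⟩
    intro h0
    apply h3
    rw [ZMod.intCast_zmod_eq_zero_iff_dvd]
    exact Int.dvd_of_emod_eq_zero h0

end Pool.Agent.Results.MP_1ac470_nt.PrimeFactorConditions
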