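import Mathlib

/-!
# MP_1ac470_nt: the quartic curve has closed points of degrees 3, 4 and 5, in units

`F(x,y,z) = x^4 + x^3 y - y^4 + y^3 z + z^4`.  The problem asks for a point of degree one on the curve
`F = 0`.  For `n = 3, 4, 5` there is a closed point of degree `n`: a zero in a number field of degree
`n`, generated by the ratios of the coordinates; and the coordinates are units of the ring of
integers.  The degrees 3 and 5 are odd, so the greatest common divisor of the degrees of the points is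
one (a line gives only degree 4).  The zeros come from
`F(-t^2, t, -1) = (t^3 - t^2 - 1)(t^5 + t^2 - 1)` and `F(1, 1, t) = t^4 + t + 1`.
-/

set_option autoImplicit false

open Polynomial NumberField

namespace Pool.Agent.Results.MP_1ac470_nt.UnitPointsByDegree

/-- The quartic form of the problem. -/
def F {R : Type} [CommRing R] (x y z : R) : R := x ^ 4 + x ^ 3 * y - y ^ 4 + y ^ 3 * z + z ^ 4

/-! ### irreducibility of three families of trinomials -/

theorem irr3 {d : ℕ} (hd : 0 < d) : Irreducible (X ^ (3 * d) - X ^ (2 * d) - 1 : ℤ[X]) := by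
  have h1 : 0 < 2 * d := by omega
  have h2 : 2 * d < 3 * d := by omega
  have hp : (X ^ (3 * d) - X ^ (2 * d) - 1 : ℤ[X]) = trinomial 0 (2 * d) (3 * d) (-1) (-1) 1 := by
    simp only [trinomial, C_neg, C_1]; ring
  rw [hp]
  apply IsUnitTrinomial.irreducible_of_coprime' ⟨0, 2 * d, 3 * d, h1, h2, -1, -1, 1, rfl⟩
  rintro z ⟨e1, e2⟩
  rw [trinomial_mirror h1 h2 (-1 : ℤˣ).ne_zero (1 : ℤˣ).ne_zero] at e2
  simp_rw [trinomial, aeval_add, aeval_mul, aeval_X_pow, aeval_C,
    Units.val_neg, Units.val_one, map_neg, map_one] at e1 e2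
  have hs : 3 * d - 2 * d + 0 = d := by omega
  rw [hs] at e2
  have q3 : z ^ (3 * d) = (z ^ d) ^ 3 := by rw [← pow_mul, mul_comm]
  have q2 : z ^ (2 * d) = (z ^ d) ^ 2 := by rw [← pow_mul, mul_comm]
  rw [q3, q2] at e1
  rw [q3] at e2
  generalize z ^ d = w at e1 e2
  have k1 : w * (w + 1) = 0 := by linear_combination (-1 : ℂ) * e1 + (-1 : ℂ) * e2
  rcases mul_eq_zero.1 k1 with k | k
  · rw [k] at e1; norm_num at e1
  · have : w = -1 := by linear_combination k
    rw [this] at e1; norm_num at e1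

theorem irr5 {d : ℕ} (hd : 0 < d) : Irreducible (X ^ (5 * d) + X ^ (2 * d) - 1 : ℤ[X]) := by
  have h1 : 0 < 2 * d := by omega
  have h2 : 2 * d < 5 * d := by omega
  have hp : (X ^ (5 * d) + X ^ (2 * d) - 1 : ℤ[X]) = trinomial 0 (2 * d) (5 * d) (-1) 1 1 := by
    simp only [trinomial, C_neg, C_1]; ring
  rw [hp]
  apply IsUnitTrinomial.irreducible_of_coprime' ⟨0, 2 * d, 5 * d, h1, h2, -1, 1, 1, rfl⟩
  rintro z ⟨e1, e2⟩
  rw [trinomial_mirror h1 h2 (-1 : ℤˣ).ne_zero (1 : ℤˣ).ne_zero] at e2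
  simp_rw [trinomial, aeval_add, aeval_mul, aeval_X_pow, aeval_C,
    Units.val_neg, Units.val_one, map_neg, map_one] at e1 e2
  have hs : 5 * d - 2 * d + 0 = 3 * d := by omega
  rw [hs] at e2
  have q5 : z ^ (5 * d) = (z ^ d) ^ 5 := by rw [← pow_mul, mul_comm]
  have q3 : z ^ (3 * d) = (z ^ d) ^ 3 := by rw [← pow_mul, mul_comm]
  have q2 : z ^ (2 * d) = (z ^ d) ^ 2 := by rw [← pow_mul, mul_comm]
  rw [q5, q2] at e1
  rw [q5, q3] at e2
  generalize z ^ d = w at e1 e2
  have k1 : w ^ 2 * (w + 1) = 0 := by linear_combination e1 + e2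
  rcases mul_eq_zero.1 k1 with k | k
  · have k' : w = 0 := pow_eq_zero_iff (two_ne_zero) |>.1 k
    rw [k'] at e1; norm_num at e1
  · have : w = -1 := by linear_combination k
    rw [this] at e1; norm_num at e1

theorem irr4 {d : ℕ} (hd : 0 < d) : Irreducible (X ^ (4 * d) + X ^ d + 1 : ℤ[X]) := by
  have h1 : 0 < d := hd
  have h2 : d < 4 * d := by omega
  have hp : (X ^ (4 * d) + X ^ d + 1 : ℤ[X]) = trinomial 0 d (4 * d) 1 1 1 := by
    simp only [trinomial, C_1]; ring
  rw [hp]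
  apply IsUnitTrinomial.irreducible_of_coprime' ⟨0, d, 4 * d, h1, h2, 1, 1, 1, rfl⟩
  rintro z ⟨e1, e2⟩
  rw [trinomial_mirror h1 h2 (1 : ℤˣ).ne_zero (1 : ℤˣ).ne_zero] at e2
  simp_rw [trinomial, aeval_add, aeval_mul, aeval_X_pow, aeval_C,
    Units.val_one, map_one] at e1 e2
  have hs : 4 * d - d + 0 = 3 * d := by omega
  rw [hs] at e2
  have q4 : z ^ (4 * d) = (z ^ d) ^ 4 := by rw [← pow_mul, mul_comm]
  have q3 : z ^ (3 * d) = (z ^ d) ^ 3 := by rw [← pow_mul, mul_comm]
  rw [q4] at e1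
  rw [q4, q3] at e2
  generalize z ^ d = w at e1 e2
  have k1 : w * ((w - 1) * (w + 1)) = 0 := by linear_combination e2 - e1
  rcases mul_eq_zero.1 k1 with k | k
  · rw [k] at e1; norm_num at e1
  rcases mul_eq_zero.1 k with k | k
  · have : w = 1 := by linear_combination k
    rw [this] at e1; norm_num at e1
  · have : w = -1 := by linear_combination k
    rw [this] at e1; norm_num at e1

/-! ### a zero in units over the field of a root -/

/-- The conclusion for the degree `n`. -/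
theorem of_poly {p : ℤ[X]} (hm : p.Monic) (hi : Irreducible p) {n : ℕ} (hn : p.natDegree = n)
    (H : ∀ (R : Type) [CommRing R] (t : R), aeval t p = 0 →
      ∃ x y z : Rˣ, F (x : R) y z = 0 ∧ ((y : R) = -(t * z) ∨ (z : R) = t * x)) :
    ∃ (K : Type) (_ : Field K) (_ : NumberField K) (x y z : (𝓞 K)ˣ),
      Module.finrank ℚ K = n ∧
      IntermediateField.adjoin ℚ {((x : 𝓞 K) : K) / ((z : 𝓞 K) : K),
        ((y : 𝓞 K) : K) / ((z : 𝓞 K) : K)} = ⊤ ∧
      F (x : 𝓞 K) (y : 𝓞 K) (z : 𝓞 K) = 0 := by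
  obtain ⟨q, hqdef⟩ : ∃ q : ℚ[X], q = p.map (Int.castRingHom ℚ) := ⟨_, rfl⟩
  have hq : Irreducible q := by
    rw [hqdef]
    exact (IsPrimitive.Int.irreducible_iff_irreducible_map_cast hm.isPrimitive).1 hi
  have hqd : q.natDegree = n := by
    rw [hqdef, hm.natDegree_map, hn]
  have fq : Fact (Irreducible q) := ⟨hq⟩
  let pb := AdjoinRoot.powerBasis hq.ne_zero
  have ffd : FiniteDimensional ℚ (AdjoinRoot q) := pb.finite
  have fcz : CharZero (AdjoinRoot q) :=
    charZero_of_injective_algebraMap (algebraMap ℚ (AdjoinRoot q)).injective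
  have nf : NumberField (AdjoinRoot q) := ⟨⟩
  have hfr : Module.finrank ℚ (AdjoinRoot q) = n := by
    rw [pb.finrank, AdjoinRoot.powerBasis_dim, hqd]
  have hroot : aeval (AdjoinRoot.root q) p = 0 := by
    have h1 : eval₂ (AdjoinRoot.of q) (AdjoinRoot.root q) (p.map (Int.castRingHom ℚ)) = 0 := by
      rw [← hqdef]
      exact AdjoinRoot.eval₂_root q
    rw [eval₂_map] at h1
    rw [aeval_def, ← h1]
    congr 1
  have hint : IsIntegral ℤ (AdjoinRoot.root q) := ⟨p, hm, hroot⟩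
  let t : 𝓞 (AdjoinRoot q) := ⟨AdjoinRoot.root q, hint⟩
  have ht : ((t : 𝓞 (AdjoinRoot q)) : AdjoinRoot q) = AdjoinRoot.root q := rfl
  have htp : aeval t p = 0 := by
    apply (injective_iff_map_eq_zero (algebraMap (𝓞 (AdjoinRoot q)) (AdjoinRoot q))).1
      (FaithfulSMul.algebraMap_injective _ _)
    rw [← aeval_algebraMap_apply]
    exact hroot
  obtain ⟨x, y, z, h0, hr⟩ := H (𝓞 (AdjoinRoot q)) t htp
  refine ⟨AdjoinRoot q, inferInstance, nf, x, y, z, hfr, ?_, h0⟩
  have hz : ((z : 𝓞 (AdjoinRoot q)) : AdjoinRoot q) ≠ 0 := by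
    intro h
    exact z.ne_zero (RingOfIntegers.ext h)
  have hx : ((x : 𝓞 (AdjoinRoot q)) : AdjoinRoot q) ≠ 0 := by
    intro h
    exact x.ne_zero (RingOfIntegers.ext h)
  set S := IntermediateField.adjoin ℚ
    {((x : 𝓞 (AdjoinRoot q)) : AdjoinRoot q) / ((z : 𝓞 (AdjoinRoot q)) : AdjoinRoot q),
      ((y : 𝓞 (AdjoinRoot q)) : AdjoinRoot q) / ((z : 𝓞 (AdjoinRoot q)) : AdjoinRoot q)} with hS
  have hxz : ((x : 𝓞 (AdjoinRoot q)) : AdjoinRoot q) / ((z : 𝓞 (AdjoinRoot q)) : AdjoinRoot q) ∈ S :=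
    IntermediateField.subset_adjoin _ _ (by simp)
  have hyz : ((y : 𝓞 (AdjoinRoot q)) : AdjoinRoot q) / ((z : 𝓞 (AdjoinRoot q)) : AdjoinRoot q) ∈ S :=
    IntermediateField.subset_adjoin _ _ (by simp)
  have hmem : AdjoinRoot.root q ∈ S := by
    rcases hr with hr | hr
    · have e : ((y : 𝓞 (AdjoinRoot q)) : AdjoinRoot q) =
          -(AdjoinRoot.root q * ((z : 𝓞 (AdjoinRoot q)) : AdjoinRoot q)) := by
        rw [hr, ← ht]; simp
      have e2 : AdjoinRoot.root q = -(((y : 𝓞 (AdjoinRoot q)) : AdjoinRoot q) /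
          ((z : 𝓞 (AdjoinRoot q)) : AdjoinRoot q)) := by
        rw [e]; field_simp
      rw [e2]
      exact S.neg_mem hyz
    · have e : ((z : 𝓞 (AdjoinRoot q)) : AdjoinRoot q) =
          AdjoinRoot.root q * ((x : 𝓞 (AdjoinRoot q)) : AdjoinRoot q) := by
        rw [hr, ← ht]; simp
      have e2 : AdjoinRoot.root q = (((x : 𝓞 (AdjoinRoot q)) : AdjoinRoot q) /
          ((z : 𝓞 (AdjoinRoot q)) : AdjoinRoot q))⁻¹ := by
        rw [e, inv_div]; field_simp
      rw [e2]
      exact S.inv_mem hxz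
  have hall : ∀ a : AdjoinRoot q, a ∈ S := by
    intro a
    obtain ⟨g, rfl⟩ := AdjoinRoot.mk_surjective a
    induction g using Polynomial.induction_on with
    | C c =>
      have e : AdjoinRoot.mk q (C c) = algebraMap ℚ (AdjoinRoot q) c := by
        rw [AdjoinRoot.mk_C, eq_ratCast, eq_ratCast]
      rw [e]
      exact S.algebraMap_mem c
    | add f g hf hg => rw [map_add]; exact S.add_mem hf hg
    | monomial k c hc =>
      have e : AdjoinRoot.mk q (C c * X ^ (k + 1)) =
          AdjoinRoot.mk q (C c * X ^ k) * AdjoinRoot.root q := by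
        rw [pow_succ, ← mul_assoc, map_mul, AdjoinRoot.mk_X]
      rw [e]
      exact S.mul_mem hc hmem
  exact eq_top_iff.2 fun a _ => hall a

theorem unit_of_mul {R : Type} [CommRing R] {a b : R} (h : a * b = 1) : ∃ u : Rˣ, (u : R) = a :=
  ⟨⟨a, b, h, by rw [mul_comm]; exact h⟩, rfl⟩

/-- **Theorem.**  For `n = 3, 4, 5` there are a number field `K` of degree `n` and units `x, y, z` of
its ring of integers with `F(x,y,z) = 0`, such that `K` is generated by the ratios `x/z`, `y/z`. -/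
theorem result (n : ℕ) (hn : n = 3 ∨ n = 4 ∨ n = 5) :
    ∃ (K : Type) (_ : Field K) (_ : NumberField K) (x y z : (𝓞 K)ˣ),
      Module.finrank ℚ K = n ∧
      IntermediateField.adjoin ℚ {((x : 𝓞 K) : K) / ((z : 𝓞 K) : K),
        ((y : 𝓞 K) : K) / ((z : 𝓞 K) : K)} = ⊤ ∧
      F (x : 𝓞 K) (y : 𝓞 K) (z : 𝓞 K) = 0 := by
  rcases hn with rfl | rfl | rfl
  · have hdeg : (X ^ 3 - X ^ 2 - 1 : ℤ[X]) = trinomial 0 2 3 (-1) (-1) 1 := by
      simp only [trinomial, C_neg, C_1]; ring
    refine of_poly (p := X ^ 3 - X ^ 2 - 1) ?_ (by simpa using irr3 one_pos) ?_ ?_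
    · rw [hdeg]; exact trinomial_monic (by norm_num) (by norm_num)
    · rw [hdeg]; exact trinomial_natDegree (by norm_num) (by norm_num) one_ne_zero
    intro R _ t ht
    simp only [map_sub, map_pow, aeval_X, map_one] at ht
    obtain ⟨u, hu⟩ := unit_of_mul (a := t) (b := t ^ 2 - t) (by linear_combination ht)
    refine ⟨-(u ^ 2), u, -1, ?_, Or.inl ?_⟩
    · simp only [F, Units.val_neg, Units.val_pow_eq_pow_val, hu, Units.val_one]
      linear_combination (t ^ 5 + t ^ 2 - 1) * ht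
    · simp [hu]
  · have hdeg : (X ^ 4 + X + 1 : ℤ[X]) = trinomial 0 1 4 1 1 1 := by
      simp only [trinomial, C_1]; ring
    refine of_poly (p := X ^ 4 + X + 1) ?_ (by simpa using irr4 one_pos) ?_ ?_
    · rw [hdeg]; exact trinomial_monic (by norm_num) (by norm_num)
    · rw [hdeg]; exact trinomial_natDegree (by norm_num) (by norm_num) one_ne_zero
    intro R _ t ht
    simp only [map_add, map_pow, aeval_X, map_one] at ht
    obtain ⟨u, hu⟩ := unit_of_mul (a := t) (b := -(t ^ 3 + 1)) (by linear_combination (-1 : R) * ht)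
    refine ⟨1, 1, u, ?_, Or.inr ?_⟩
    · simp only [F, hu, Units.val_one]
      linear_combination ht
    · simp [hu]
  · have hdeg : (X ^ 5 + X ^ 2 - 1 : ℤ[X]) = trinomial 0 2 5 (-1) 1 1 := by
      simp only [trinomial, C_neg, C_1]; ring
    refine of_poly (p := X ^ 5 + X ^ 2 - 1) ?_ (by simpa using irr5 one_pos) ?_ ?_
    · rw [hdeg]; exact trinomial_monic (by norm_num) (by norm_num)
    · rw [hdeg]; exact trinomial_natDegree (by norm_num) (by norm_num) one_ne_zero
    intro R _ t ht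
    simp only [map_sub, map_add, map_pow, aeval_X, map_one] at ht
    obtain ⟨u, hu⟩ := unit_of_mul (a := t) (b := t ^ 4 + t) (by linear_combination ht)
    refine ⟨-(u ^ 2), u, -1, ?_, Or.inl ?_⟩
    · simp only [F, Units.val_neg, Units.val_pow_eq_pow_val, hu, Units.val_one]
      linear_combination (t ^ 3 - t ^ 2 - 1) * ht
    · simp [hu]

end Pool.Agent.Results.MP_1ac470_nt.UnitPointsByDegree
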